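import Pool.Agent.V1157.RO.Main

/-!
# Endomorphisms of odd cohomology which are absolute Hodge up to errors of bounded rank

Fix an odd degree `m` and a dimension `n`, and consider two families `𝒯` and `𝒜` of endomorphisms of
`H^m(X)`, for all varieties `X`, for example the endomorphisms of the Hodge structure `H^m(X, ℚ)` and
those given by absolute Hodge correspondences. If, for some `D` and all `X` of dimension `n`, all
operators in `𝒯` are sums of an operator in `𝒜` and of a linear map of rank at most `D`, then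
all operators in `𝒯` are in `𝒜`, for all `X` of dimension `n`.

Proof: let `φ` in `𝒯` be an endomorphism of `H^m(S)`, and let `V` be a complete intersection in `S^N`
of dimension `n`, with projections `p_j` to `S`; `(p_l)_* (p_j)^*` is zero on `H^m(S)` for `l ≠ j`
because `m` is odd. The operator `∑ (p_i)^* φ (p_i)_*` on `V` is `ψ + E` with `ψ` in `𝒜` and `E` of rank
at most `D`. The blocks `(p_l)_* E (p_j)^*` are, modulo `𝒜`, zero for `l ≠ j` and a non-zero multiple
of `φ` for `l = j`. If `φ` is not in `𝒜`, then the restrictions of the `N` maps `(p_l)_*` to the image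
of `E` are linearly independent, and so `N` is at most `D` times the dimension of `H^m(S)`.
-/

open CategoryTheory AlgebraicGeometry

universe u v w

namespace Pool.Agent.Results.MP_0da4e0_ag.EndomorphismsUpToRank

open Pool.Agent.H914 Pool.Agent.H914.VarClass Pool.Agent.H914.VarClass.Obj Pool.Agent.W492.BB
  Pool.Agent.TH133 Pool.Agent.V1157.BD Pool.Agent.V1157.RO

theorem result {k : Type u} [Field k] {𝒱 : VarClass k} {C : TheoryData.{u, v, 0} 𝒱 ℚ}
    [IsChowProj C] {K : Type w} [Field K] [CharZero K] {H : WeilTheoryData.{u, v, w} C K}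
    [IsWeilProj H] (m n : ℕ) (hm : Odd m) (𝒯 𝒜 : OpFamily H) (h𝒯 : IsFamily 𝒯 m)
    (h𝒜 : IsFamily 𝒜 m) (hfin : ∀ X : 𝒱.Obj, Module.Finite K (H.A X))
    (hP : ∀ (S : 𝒱.Obj) (N : ℕ), S.dim = n → HasPower C n N S) :
    AllIn 𝒯 𝒜 n ↔ ∃ D, AllInUpToRank 𝒯 m 𝒜 n D :=
  ⟨fun h => ⟨0, rank_of_allIn h⟩, fun ⟨_, hD⟩ => allIn_of_rank hm h𝒯 h𝒜 hfin hP hD⟩

end Pool.Agent.Results.MP_0da4e0_ag.EndomorphismsUpToRank
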