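import Pool.Agent.V11273.GH.I4

/-!
# Hodge classes on products of almost all integral fibres of arbitrary families with symplectic monodromy

Let `𝕍_1, …, 𝕍_k` be polarized variations of `ℤ`-Hodge structure of geometric origin over open parts of the projective line over
`ℚ`, near the point `x = 0` (a regular point or a singular point with unipotent monodromy), with unimodular symplectic
polarizations, of arbitrary odd weights and with arbitrary Hodge numbers, and with Zariski dense monodromy in the symplectic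
group. For instance the middle cohomology of a family of smooth hypersurfaces of odd dimension (a Lefschetz pencil). The period
matrix `P_i(x)` has as rows the coordinates with respect to a flat symplectic basis of the lattice, and as columns the elements
of a basis over `ℚ(x)` of the algebraic bundle which is adapted to the Hodge filtration. Its entries are combinations
with complex coefficients of products of powers of `log x` and of G-functions: the members of a vector `h_i` of G-functions
over `ℚ` which solves a linear differential system `T y' = A y` with the conditions of Siegel and Galochkin (`GFamily`).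

**Theorem.** Let `D ≥ 0`. There are `c > 0` and `C` with the following property. For all but
`C N^(k-1) ∑_i (1 + N / (x_i + N)^c)` of the tuples `t` of integers with `x_i < t_i ≤ x_i + N`, at which the `P_i(1 / t_i)` are period
matrices of polarized Hodge structures, ALL integral Hodge tensors of degree at most `D`, of any size, of the Hodge
structure `𝕍_1(1 / t_1) ⊕ … ⊕ 𝕍_k(1 / t_k)` are combinations of products of the polarizations (over perfect matchings of the
variables). The same is true with a function `D = D(N) → ∞` for all but `o(N^k)` tuples in `[1, N]^k`.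

If the `𝕍_i` are the variations of the middle cohomology of families of hypersurfaces `X_i` of odd dimension, the
polarizations are components of the classes of the diagonals, and the other cohomology of `X_i` is spanned by algebraic classes. So
all Hodge classes on `X_1(1 / t_1)^(r_1) × … × X_k(1 / t_k)^(r_k)`, `∑ r_i ≤ D`, are algebraic, in particular absolute Hodge, outside of
the exceptional set: the Hodge realization is full on the motives in the tensor category generated by almost all fibres, up to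
tensor degree `D / 2`. The motives of these hypersurfaces are not known to be generated by abelian varieties in general.
For complex members outside of a countable union of algebraic sets of the parameter space this is well known, but nothing was
known for the members over `ℚ`. The starting theorems HodgeTuples and SymplecticMotives treat the hypergeometric variations
with all Hodge numbers 1.

Proof. MP_0704bf_ag.AllTensorsIntegralFibres (`V11273/GH/I1`) and the first fundamental theorem for products of symplectic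
groups (`V11273/GH/F2`; library `H204R3.GP`).
-/

set_option autoImplicit false

open PowerSeries Filter
open scoped Matrix

namespace Pool.Agent.Results.MP_0da4e0_ag.IntegralFibresHodge

/-- an integer polynomial as a power series with rational coefficients -/
noncomputable def toQ (P : Polynomial ℤ) : PowerSeries ℚ := ((P.map (Int.castRingHom ℚ) : Polynomial ℚ) : PowerSeries ℚ)

/-- the power series `P(u^e)` -/
noncomputable def atPow (e : ℕ) (P : Polynomial ℤ) : PowerSeries ℂ :=
  ((Polynomial.expand ℂ e (P.map (Int.castRingHom ℂ)) : Polynomial ℂ) : PowerSeries ℂ)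

/-- the matrices `G_s` over `ℤ[x]` with `T^s y^(s) = G_s y` for all solutions `y` of `T y' = A y` -/
noncomputable def iter {r : ℕ} (T : Polynomial ℤ) (A : Fin r → Fin r → Polynomial ℤ) : ℕ → Fin r → Fin r → Polynomial ℤ
  | 0 => fun i j => if i = j then 1 else 0
  | s + 1 => fun i j => T * Polynomial.derivative (iter T A s i j) + ∑ l, iter T A s i l * A l j -
      (s : Polynomial ℤ) * (Polynomial.derivative T * iter T A s i j)

/-- The system `T y' = A y` has a fundamental matrix of solutions of the form `u^(-M) ∑_n Φ_n(u) (log u)^n` with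
`u^e = x` and convergent power series `Φ_n`: the point `0` is regular or a regular singularity with rational
exponents. -/
def QuasiUnipotent {r : ℕ} (T : Polynomial ℤ) (A : Fin r → Fin r → Polynomial ℤ) : Prop :=
  ∃ (e M : ℕ) (K : ℝ) (Φ : Matrix (Fin r) (Fin r) (Polynomial (PowerSeries ℂ))), 1 ≤ e ∧ Φ.det ≠ 0 ∧
    (∀ i j n m, ‖coeff m ((Φ i j).coeff n)‖ ≤ K ^ (m + 1)) ∧
    ∀ i j n, atPow e T * (X * PowerSeries.derivative ℂ ((Φ i j).coeff n) +
        ((n : PowerSeries ℂ) + 1) * (Φ i j).coeff (n + 1) - (M : PowerSeries ℂ) * (Φ i j).coeff n) =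
      (e : PowerSeries ℂ) * X ^ e * ∑ l, atPow e (A i l) * (Φ l j).coeff n

/-- `h_1, ..., h_r` are G-functions with rational coefficients which solve the differential system `T y' = A y`, with
the conditions of Siegel and Galochkin, and `0` is a regular point or a regular singularity with rational exponents of
the system. -/
structure GFamily {r : ℕ} (T : Polynomial ℤ) (A : Fin r → Fin r → Polynomial ℤ) (h : Fin r → PowerSeries ℚ) : Prop where
  /-- the denominator is not zero -/
  T_ne : T ≠ 0
  /-- the differential equations -/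
  ode : ∀ i, toQ T * PowerSeries.derivative ℚ (h i) = ∑ j, toQ (A i j) * h j
  /-- the coefficients have geometric growth -/
  size : ∃ C : ℝ, ∀ i m, |((coeff m (h i) : ℚ) : ℝ)| ≤ C ^ (m + 1)
  /-- the common denominators of the coefficients have geometric growth -/
  den : ∃ C : ℝ, ∀ m : ℕ, ∃ d : ℕ, 0 < d ∧ (d : ℝ) ≤ C ^ (m + 1) ∧ ∀ i, ∀ j ≤ m, ∃ a : ℤ, (d : ℚ) * coeff j (h i) = a
  /-- Galochkin's condition: the common denominators of the matrices `G_s / s!` have geometric growth -/
  galochkin : ∃ C : ℝ, ∀ m : ℕ, ∃ d : ℕ, 0 < d ∧ (d : ℝ) ≤ C ^ (m + 1) ∧ ∀ s ≤ m, ∀ i j,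
    ∃ H : Polynomial ℤ, (d : Polynomial ℤ) * iter T A s i j = (s.factorial : Polynomial ℤ) * H
  /-- the local exponents at `0` are rational and the singularity is regular -/
  regular : QuasiUnipotent T A

theorem iter_eq {r : ℕ} (T : Polynomial ℤ) (A : Fin r → Fin r → Polynomial ℤ) (s : ℕ) :
    iter T A s = Pool.Agent.Y120.GH.itm T A s := by
  induction s with
  | zero => rfl
  | succ s ih =>
    funext i j
    rw [iter, Pool.Agent.Y120.GH.itm, ih]

theorem qu_eq {r : ℕ} {T : Polynomial ℤ} {A : Fin r → Fin r → Polynomial ℤ} (h : QuasiUnipotent T A) :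
    Pool.Agent.Y120.GH.QU0 T A := by
  obtain ⟨e, M, K, Φ, he, hdet, hc, heq⟩ := h
  have he0 : e ≠ 0 := by omega
  refine ⟨e, he0, M, K, Φ, hc, fun i j n => ?_, hdet⟩
  have h1 := heq i j n
  simp only [atPow] at h1
  rw [Pool.Agent.Y120.GH.expand_poly he0]
  simp only [Pool.Agent.Y120.GH.expand_poly he0]
  exact h1

theorem fam {r : ℕ} {T : Polynomial ℤ} {A : Fin r → Fin r → Polynomial ℤ} {h : Fin r → PowerSeries ℚ}
    (hG : GFamily T A h) (δ : ℕ) : Pool.Agent.Y120.R.Fam δ h :=
  ⟨hG.size, Pool.Agent.Y120.GH.family_main hG.T_ne hG.ode hG.size hG.den (by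
    obtain ⟨C, hC⟩ := hG.galochkin
    refine ⟨C, fun m => ?_⟩
    obtain ⟨d, h1, h2, h3⟩ := hC m
    refine ⟨d, h1, h2, fun s hs i' j' => ?_⟩
    rw [← iter_eq]
    exact h3 s hs i' j') (qu_eq hG.regular) δ⟩

section family
variable {r n : ℕ}

/-- The period matrix at `x = 1 / s`: the entries are the polynomials `P a b` in `log s` and in the `h_l(1 / s)`. -/
noncomputable def perMat (h : Fin r → PowerSeries ℚ) (P : Fin n → Fin n → MvPolynomial (Option (Fin r)) ℂ) (s : ℝ) :
    Matrix (Fin n) (Fin n) ℂ :=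
  Matrix.of fun a b => MvPolynomial.aeval (fun o : Option (Fin r) => o.elim ((Real.log s : ℝ) : ℂ)
    fun l => ((∑' m : ℕ, ((coeff m (h l) : ℚ) : ℝ) * (1 / s) ^ m : ℝ) : ℂ)) (P a b)

/-- the value at `x = 1 / s` and at the matrix `Z` of a polynomial in the entries of a matrix over `ℂ[x]` -/
noncomputable def relAt (R : MvPolynomial (Fin n × Fin n) (Polynomial ℂ)) (s : ℝ) (Z : Matrix (Fin n) (Fin n) ℂ) : ℂ :=
  MvPolynomial.eval₂ (Polynomial.evalRingHom (1 / (s : ℂ))) (fun v => Z v.1 v.2) R

/-- `g P(x)` satisfies all polynomial relations over `ℂ[x]` which `P(x)` satisfies. -/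
def Preserves (h : Fin r → PowerSeries ℚ) (P : Fin n → Fin n → MvPolynomial (Option (Fin r)) ℂ)
    (g : Matrix (Fin n) (Fin n) ℂ) : Prop :=
  ∀ R : MvPolynomial (Fin n × Fin n) (Polynomial ℂ), (∀ᶠ s : ℝ in Filter.atTop, relAt R s (perMat h P s) = 0) →
    ∀ᶠ s : ℝ in Filter.atTop, relAt R s (g * perMat h P s) = 0

/-- The group of the matrices `g` such that `g` and `g⁻¹` preserve the relations. If `P` is a fundamental matrix of a linear
differential system over `ℂ(x)` this is its differential Galois group. -/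
noncomputable def Gal (h : Fin r → PowerSeries ℚ) (P : Fin n → Fin n → MvPolynomial (Option (Fin r)) ℂ) :
    Subgroup (Matrix.GeneralLinearGroup (Fin n) ℂ) where
  carrier := {g | Preserves h P (g : Matrix (Fin n) (Fin n) ℂ) ∧
    Preserves h P ((g⁻¹ : Matrix.GeneralLinearGroup (Fin n) ℂ) : Matrix (Fin n) (Fin n) ℂ)}
  mul_mem' := fun hg hg' => (Pool.Agent.Y123.GN.Gs h P).mul_mem' hg hg'
  one_mem' := (Pool.Agent.Y123.GN.Gs h P).one_mem'
  inv_mem' := fun hg => (Pool.Agent.Y123.GN.Gs h P).inv_mem' hg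

theorem gal_eq (h : Fin r → PowerSeries ℚ) (P : Fin n → Fin n → MvPolynomial (Option (Fin r)) ℂ) :
    Gal h P = Pool.Agent.Y123.GN.Gs h P := rfl

end family

/-- the standard symplectic form on `ℚ ^ (g + g)` or `ℂ ^ (g + g)` -/
noncomputable def form (Ω : Type) [Field Ω] (g : ℕ) : Matrix (Fin (g + g)) (Fin (g + g)) Ω :=
  Matrix.reindex finSumFinEquiv finSumFinEquiv (Matrix.J (Fin g) Ω)

/-- the Galois group contains the symplectic group -/
def ContainsSymplectic {r g : ℕ} (h : Fin r → PowerSeries ℚ)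
    (P : Fin (g + g) → Fin (g + g) → MvPolynomial (Option (Fin r)) ℂ) : Prop :=
  ∀ a : Matrix.GeneralLinearGroup (Fin (g + g)) ℂ, (a : Matrix (Fin (g + g)) (Fin (g + g)) ℂ).det = 1 →
    (a : Matrix (Fin (g + g)) (Fin (g + g)) ℂ) * form ℂ g * (a : Matrix (Fin (g + g)) (Fin (g + g)) ℂ)ᵀ = form ℂ g →
    a ∈ Gal h P

/-- The Hodge structure with the period matrix `Y` has a basis `Z` adapted to the Hodge decomposition and unitary for the Hodge
metric: `Z_b` is in `F^(p b)` (the span of the columns `a` of `Y` with `p a ≥ p b`), its conjugate is in the span of the `Z_a` with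
`p a = w - p b`, and `S(Z_a, conj Z_b) = i ^ (w - 2 p b)` if `a = b`, and `0` if not. -/
def HasUnitaryBasis {n : ℕ} (p : Fin n → ℤ) (w : ℤ) (S Y : Matrix (Fin n) (Fin n) ℂ) : Prop :=
  ∃ Z T M : Matrix (Fin n) (Fin n) ℂ, Z = Y * T ∧ (∀ a b, T a b ≠ 0 → p b ≤ p a) ∧
    Z.map (starRingEnd ℂ) = Z * M ∧ (∀ a b, M a b ≠ 0 → p a + p b = w) ∧
    Zᵀ * S * Z.map (starRingEnd ℂ) = Matrix.diagonal fun b => Complex.I ^ (w - 2 * p b)

/-- a polarized variation of Hodge structure with the period matrix `P`; the polarization is the standard symplectic form -/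
structure Variation {ρ g : ℕ} (h : Fin ρ → PowerSeries ℚ)
    (P : Fin (g + g) → Fin (g + g) → MvPolynomial (Option (Fin ρ)) ℂ) where
  /-- the weight -/
  w : ℤ
  /-- the levels of the columns in the Hodge filtration -/
  p : Fin (g + g) → ℤ
  /-- the monodromy group -/
  monodromy : Subgroup (Matrix.GeneralLinearGroup (Fin (g + g)) ℂ)
  le_galois : monodromy ≤ Gal h P
  /-- the monodromy group is Zariski dense in the Galois group -/
  dense : ∀ Q : MvPolynomial (Fin (g + g) × Fin (g + g)) ℂ,
    (∀ a ∈ monodromy, MvPolynomial.eval (fun v => (a : Matrix (Fin (g + g)) (Fin (g + g)) ℂ) v.1 v.2) Q = 0) →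
    ∀ a ∈ Gal h P, MvPolynomial.eval (fun v => (a : Matrix (Fin (g + g)) (Fin (g + g)) ℂ) v.1 v.2) Q = 0
  /-- it consists of integral matrices -/
  integral : ∀ a ∈ monodromy, ∀ u v, ∃ m : ℤ, (a : Matrix (Fin (g + g)) (Fin (g + g)) ℂ) u v = m
  /-- it preserves the polarization -/
  preserves : ∀ a ∈ monodromy, (a : Matrix (Fin (g + g)) (Fin (g + g)) ℂ)ᵀ * form ℂ g *
    (a : Matrix (Fin (g + g)) (Fin (g + g)) ℂ) = form ℂ g

section
variable {k : ℕ} {g : Fin k → ℕ} {ρ : Fin k → ℕ}

/-- The polarization of the `i`-th summand: the value of the standard symplectic form on two vectors of the basis if they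
both belong to the `i`-th summand, and zero otherwise. -/
noncomputable def polarization (i : Fin k) (a b : Σ i, Fin (g i + g i)) : ℚ :=
  if a.1 = i then (Matrix.blockDiagonal' (fun i => form ℚ (g i)) :
    Matrix (Σ i, Fin (g i + g i)) (Σ i, Fin (g i + g i)) ℚ) a b else 0

/-- The span of the products of the polarizations over perfect matchings of the `2 m` variables. -/
noncomputable def products (g : Fin k → ℕ) (m : ℕ) : Submodule ℚ ((Fin (2 * m) → Σ i, Fin (g i + g i)) → ℚ) :=
  Submodule.span ℚ {F | ∃ (e : Fin m × Fin 2 ≃ Fin (2 * m)) (c : Fin m → Fin k),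
    ∀ I, F I = ∏ s, polarization (c s) (I (e (s, 0))) (I (e (s, 1)))}

/-- the product of the tensor `γ` of degree `m` with the column `J` of the `m`-th tensor power of the matrix `Z` -/
noncomputable def times {I : Type} [Fintype I] {m : ℕ} (γ : (Fin m → I) → ℂ) (Z : Matrix I I ℂ) (J : Fin m → I) : ℂ :=
  ∑ a, γ a * ∏ i, Z (a i) (J i)

variable {h : ∀ i, Fin (ρ i) → PowerSeries ℚ}
  {P : ∀ i, Fin (g i + g i) → Fin (g i + g i) → MvPolynomial (Option (Fin (ρ i))) ℂ}

/-- `γ`, an element of the `m`-th tensor power of the dual of `𝕍_1(1 / t_1) ⊕ … ⊕ 𝕍_k(1 / t_k)`, is a Hodge tensor: it is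
orthogonal to the elements of the tensor power of level more than half of the weight -/
def IsHodge (V : ∀ i, Variation (h i) (P i)) (t : Fin k → ℕ) {m : ℕ}
    (γ : (Fin m → Σ i, Fin (g i + g i)) → ℂ) : Prop :=
  ∀ J : Fin m → Σ i, Fin (g i + g i), ∑ i, (V (J i).1).w < 2 * ∑ i, (V (J i).1).p (J i).2 →
    times γ (Matrix.blockDiagonal' fun i => perMat (h i) (P i) (t i : ℝ)) J = 0

/-- all integral Hodge tensors of degree `2 m ≤ D` (of any size) of `𝕍_1(1 / t_1) ⊕ … ⊕ 𝕍_k(1 / t_k)` are combinations of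
products of the polarizations -/
def OnlyProducts (D : ℕ) (V : ∀ i, Variation (h i) (P i)) (t : Fin k → ℕ) : Prop :=
  ∀ m : ℕ, 2 * m ≤ D → ∀ γ : (Fin (2 * m) → Σ i, Fin (g i + g i)) → ℤ, IsHodge V t (fun a => (γ a : ℂ)) →
    (fun a => (γ a : ℚ)) ∈ products g m

end

/-- **The theorem.** -/
theorem result (k e : ℕ) (g ρ : Fin k → ℕ) (T : Fin k → Polynomial ℤ)
    (A : ∀ i, Fin (ρ i) → Fin (ρ i) → Polynomial ℤ) (h : ∀ i, Fin (ρ i) → PowerSeries ℚ)
    (hG : ∀ i, GFamily (T i) (A i) (h i)) :
    -- tensors of degree at most `D`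
    (∀ D : ℕ, ∃ c C : ℝ, 0 < c ∧ 0 ≤ C ∧
      ∀ P : ∀ i, Fin (g i + g i) → Fin (g i + g i) → MvPolynomial (Option (Fin (ρ i))) ℂ,
      (∀ i a b, (P i a b).totalDegree ≤ e) → (∀ i, ContainsSymplectic (h i) (P i)) →
      ∀ (V : ∀ i, Variation (h i) (P i)) (x : Fin k → ℕ) (N : ℕ), 1 ≤ N →
      (({t : Fin k → ℕ | (∀ i, x i < t i ∧ t i ≤ x i + N) ∧
        (∀ i, HasUnitaryBasis (V i).p (V i).w (form ℂ (g i)) (perMat (h i) (P i) (t i : ℝ))) ∧
        ¬ OnlyProducts D V t}.ncard : ℕ) : ℝ) ≤ C * (N : ℝ) ^ (k - 1) * ∑ i, (1 + N / ((x i : ℝ) + N) ^ c)) ∧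
    -- tensors of degree at most `D N`, which tends to infinity
    (∃ (D : ℕ → ℕ) (δ : ℕ → ℝ), Tendsto D atTop atTop ∧ Tendsto δ atTop (nhds 0) ∧
      ∀ P : ∀ i, Fin (g i + g i) → Fin (g i + g i) → MvPolynomial (Option (Fin (ρ i))) ℂ,
      (∀ i a b, (P i a b).totalDegree ≤ e) → (∀ i, ContainsSymplectic (h i) (P i)) →
      ∀ (V : ∀ i, Variation (h i) (P i)) (N : ℕ), 1 ≤ N →
      (({t : Fin k → ℕ | (∀ i, 1 ≤ t i ∧ t i ≤ N) ∧
        (∀ i, HasUnitaryBasis (V i).p (V i).w (form ℂ (g i)) (perMat (h i) (P i) (t i : ℝ))) ∧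
        ¬ OnlyProducts (D N) V t}.ncard : ℕ) : ℝ) ≤ δ N * (N : ℝ) ^ k) := by
  classical
  have hmain : ∀ D : ℕ, ∃ c C : ℝ, 0 < c ∧ 0 ≤ C ∧
      ∀ P : ∀ i, Fin (g i + g i) → Fin (g i + g i) → MvPolynomial (Option (Fin (ρ i))) ℂ,
      (∀ i a b, (P i a b).totalDegree ≤ e) → (∀ i, ContainsSymplectic (h i) (P i)) →
      ∀ (V : ∀ i, Variation (h i) (P i)) (x : Fin k → ℕ) (N : ℕ), 1 ≤ N →
      (({t : Fin k → ℕ | (∀ i, x i < t i ∧ t i ≤ x i + N) ∧
        (∀ i, HasUnitaryBasis (V i).p (V i).w (form ℂ (g i)) (perMat (h i) (P i) (t i : ℝ))) ∧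
        ¬ OnlyProducts D V t}.ncard : ℕ) : ℝ) ≤ C * (N : ℝ) ^ (k - 1) * ∑ i, (1 + N / ((x i : ℝ) + N) ^ c) := by
    intro D
    obtain ⟨c, C, hc, hC, hmain⟩ := Pool.Agent.V11273.GH.hodge_sum k D e ρ (fun i => g i + g i) h fun i δ => fam (hG i) δ
    refine ⟨c, C, hc, hC, ?_⟩
    intro P hP hSp V x N hN
    set E := {t : Fin k → ℕ | (∀ i, x i < t i ∧ t i ≤ x i + N) ∧
        (∀ i, HasUnitaryBasis (V i).p (V i).w (form ℂ (g i)) (perMat (h i) (P i) (t i : ℝ))) ∧
        ¬ OnlyProducts D V t} with hE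
    have hfin : E.Finite := by
      refine (Set.finite_Iic (fun i : Fin k => x i + N)).subset ?_
      intro t ht i
      exact (ht.1 i).2
    rw [Set.ncard_eq_toFinset_card E hfin]
    refine hmain P hP (fun i => (V i).p) (fun i => (V i).w) (fun i => form ℂ (g i))
      (fun i => (V i).monodromy) (fun i => (V i).le_galois) (fun i => (V i).dense) (fun i => (V i).integral)
      (fun i => (V i).preserves) x N hN _ fun t ht => ?_
    have ht' : t ∈ E := hfin.mem_toFinset.1 ht
    obtain ⟨hbox, hfr, hnot⟩ := ht'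
    unfold OnlyProducts at hnot
    push Not at hnot
    obtain ⟨m, hm, γ, hγ, hn⟩ := hnot
    refine ⟨hbox, hfr, 2 * m, hm, γ, hγ, ?_⟩
    by_contra hcon
    push Not at hcon
    refine hn (Pool.Agent.V11273.GH.symp_inv (𝒢 := fun i => Pool.Agent.Y123.GN.Gs (h i) (P i))
      (fun i a ha => hSp i a ha.1 ha.2) fun a ha => ?_)
    have h1 := hcon a ha
    simpa using h1
  refine ⟨hmain, ?_⟩
  choose c C hc hC hcount using hmain
  obtain ⟨D, hD, hδ⟩ := Pool.Agent.Y123.GN.diag_seq
    (fun D N => C D * k * (1 / (N : ℝ) + 1 / (N : ℝ) ^ (c D))) (by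
      intro D
      have h1 : Tendsto (fun N : ℕ => (1 : ℝ) / (N : ℝ)) atTop (nhds 0) := tendsto_one_div_atTop_nhds_zero_nat
      have h2 : Tendsto (fun N : ℕ => (1 : ℝ) / (N : ℝ) ^ (c D)) atTop (nhds 0) := by
        have h3 := (tendsto_rpow_atTop (hc D)).comp tendsto_natCast_atTop_atTop
        have h4 := h3.inv_tendsto_atTop
        refine h4.congr fun N => ?_
        rw [one_div]
        rfl
      have h5 := (h1.add h2).const_mul (C D * k)
      rw [add_zero, mul_zero] at h5
      exact h5)
  refine ⟨D, _, hD, hδ, ?_⟩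
  intro P hP hSp V N hN
  have h1 := hcount (D N) P hP hSp V (fun _ => 0) N hN
  have h2 : {t : Fin k → ℕ | (∀ i, 0 < t i ∧ t i ≤ 0 + N) ∧
      (∀ i, HasUnitaryBasis (V i).p (V i).w (form ℂ (g i)) (perMat (h i) (P i) (t i : ℝ))) ∧
      ¬ OnlyProducts (D N) V t} = {t : Fin k → ℕ | (∀ i, 1 ≤ t i ∧ t i ≤ N) ∧
      (∀ i, HasUnitaryBasis (V i).p (V i).w (form ℂ (g i)) (perMat (h i) (P i) (t i : ℝ))) ∧
      ¬ OnlyProducts (D N) V t} := by
    ext t
    simp only [Set.mem_ofPred_eq, zero_add, Nat.lt_iff_add_one_le]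
  rw [h2] at h1
  refine h1.trans (le_of_eq ?_)
  have hN0 : (N : ℝ) ≠ 0 := by
    have : N ≠ 0 := by omega
    exact_mod_cast this
  rw [Finset.sum_const, Finset.card_univ, Fintype.card_fin, nsmul_eq_mul, Nat.cast_zero, zero_add]
  rcases Nat.eq_zero_or_pos k with hk | hk
  · subst hk
    simp
  · obtain ⟨q, rfl⟩ : ∃ q, k = q + 1 := ⟨k - 1, by omega⟩
    have h3 : (N : ℝ) ^ (q + 1) = (N : ℝ) ^ q * N := pow_succ _ _
    rw [Nat.add_sub_cancel, h3]
    have h4 : (1 : ℝ) + N / (N : ℝ) ^ (c (D N)) = N * (1 / (N : ℝ) + 1 / (N : ℝ) ^ (c (D N))) := by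
      rw [mul_add, mul_one_div_cancel hN0, mul_one_div]
    rw [h4]
    ring

end Pool.Agent.Results.MP_0da4e0_ag.IntegralFibresHodge
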