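import Pool.Agent.Results.MP_0da4e0_ag.HodgeTuples
import Pool.Agent.V11286.NE.Vol
import Pool.Agent.V11168.NX.CoreK

/-!
# Hodge classes on ALL products of fibres of the hypergeometric variations near the terms of a sequence

Let `β_1, …, β_m` be rational numbers in `(0, 1)`, `m ≥ 2`. The hypergeometric operator `θ^(2m) - z ∏_j (θ + β_j) (θ + 1 - β_j)`
underlies a variation of Hodge structure of weight `2m - 1` on the projective line minus three points with all Hodge numbers
`h^{p,q} = 1`; for `m = 2` and `β = (1/5, 2/5)` it is the variation of the third cohomology of the mirror quintics, for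
`β_j = j / (2m + 1)` the middle cohomology of the mirrors `X_t` of the Calabi–Yau hypersurfaces of degree `2m + 1`.

The starting file `HodgeTuples` considers the fibres at the points `z = 1 / (t - G u)`, `1 ≤ u ≤ B`, `(B + 2)^E ≤ t`, where `G` is
fixed and sufficiently large, and deletes a set of at most `m + 2` unknown numbers `u`, which depends on `t`: for different fibres
`V_1, …, V_k` at the other points and every `W` (for example `H^1` of an abelian variety) all Hodge classes in
`⨂_a V_{c(a)} ⊗ W^{⊗ j}` are combinations of products of polarisations and of Hodge classes in `W^{⊗ j}`.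

Here there are no exceptional fibres. Let `v_n ≥ 1` be a sequence with exponent of convergence at most `τ`. (1) For all `α > 0`
outside a set of Hausdorff dimension at most `(1 - c + τ) / (1 - θ)`, where `c > 0` depends on `m`, `β`, `G` only, and all large `n`
this holds for **all** fibres at the points `z = 1 / (G s + r)`, `|s - α v_n| ≤ v_n ^ θ`, and for all products of any number of them.
(2) If the exponent of convergence is zero (for example `v_n = 2 ^ n`), this holds for almost all `α > 0`, for all `G ≥ G₀` and all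
`r` at the same time. So for almost all `α` all Hodge classes on `Y × ∏_i X_{t_i}^{r_i}`, where `Y` is an abelian variety and the
`X_{t_i}` are mirrors with different parameters `t_i = G s_i + r` in the windows around `α v_n`, are combinations of products of
polarisations and of Hodge classes on powers of `Y`.

The definitions are those of `HodgeTuples`. Proof: the theorem `HodgeTuples` and covering arguments
(`Pool.Agent.V11168.NX.nxk`, which uses the metric theorem `Pool.Agent.Y854.GM.windowsV` of the starting library and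
generalises `no_exc` of helper286).
-/

set_option autoImplicit false

open MeasureTheory Filter

namespace Pool.Agent.Results.MP_0da4e0_ag.SequencesWithoutExceptions

open Pool.Agent.Results.MP_0da4e0_ag.HodgeTuples (RationalStructure IsFibre OnlyProducts)

/-- The exponent of convergence of the sequence `v` is at most `τ`. -/
def ConvergenceExponentLe (v : ℕ → ℝ) (τ : ℝ) : Prop := ∀ s : ℝ, τ < s → Summable (fun n : ℕ => (v n) ^ (-s))

/-- For all Hodge structures `V_1, …, V_k` on `ℚ^(2m)` polarised by `± A` which are the fibres of the hypergeometric variation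
at the points `z = 1 / (t_i)` and all `W = ℚ^d` with a `ℤ`-grading `U` of `W_ℂ` such that `U (p - (2m - 1)) = 0` if `U p ≠ 0`:
all rational tensors of type `P` in `V_{c 1} ⊗ ⋯ ⊗ V_{c r} ⊗ W^{⊗ j}` (all `r`, `j`, `c`, `P`) are combinations of products of
the polarisations on pairs of factors of the same colour and rational tensors of type `P - r (2m - 1) / 2` in `W^{⊗ j}`. -/
def HodgeClassesAreProducts {m : ℕ} (β : Fin m → ℚ) (C : Matrix (Fin (2 * m)) (Fin (2 * m)) ℂ)
    (A : Matrix (Fin (2 * m)) (Fin (2 * m)) ℚ) {k : ℕ} (t : Fin k → ℕ) : Prop :=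
  ∀ V : Fin k → ℕ → Submodule ℂ (Fin (2 * m) → ℂ), (∀ i, IsFibre β (t i) C A (V i)) →
    ∀ (d : ℕ) (U : ℤ → Submodule ℂ (Fin d → ℂ)), DirectSum.IsInternal U →
      (∀ p : ℤ, U p ≠ ⊥ → U (p - (2 * (m : ℤ) - 1)) = ⊥) → OnlyProducts A V U

/-- the integers of absolute value at most `T`, as complex numbers -/
def ints (T : ℝ) : Set ℂ := {a | ∃ n : ℤ, a = n ∧ |(n : ℝ)| ≤ T}

lemma pow_ineq (E H N : ℕ) (h : (H + 2) ^ (2 * E + 1) ≤ N) : (2 * H + 1 + 2) ^ E ≤ N := by
  have h1 : (2 * H + 1 + 2) ^ E ≤ (H + 2) ^ (2 * E) := by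
    rw [pow_mul]
    exact Nat.pow_le_pow_left (by nlinarith) _
  exact (h1.trans (Nat.pow_le_pow_right (by omega) (by omega))).trans h

lemma main {m : ℕ} (hm : 2 ≤ m) (β : Fin m → ℚ) (hβ : ∀ j, 0 < β j ∧ β j < 1) :
    ∃ G₀ : ℕ, 1 ≤ G₀ ∧ ∀ G : ℕ, G₀ ≤ G → ∃ c : ℝ, 0 < c ∧ c < 1 ∧
      ∀ (r : ℕ) (C : Matrix (Fin (2 * m)) (Fin (2 * m)) ℂ) (A : Matrix (Fin (2 * m)) (Fin (2 * m)) ℚ),
      RationalStructure C A → ∀ (v : ℕ → ℝ) (τ θ : ℝ), (∀ n, 1 ≤ v n) → 0 ≤ τ → ConvergenceExponentLe v τ → 0 ≤ θ → θ ≤ c →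
      ∃ X : Set ℝ, dimH X ≤ ENNReal.ofReal ((1 - c + τ) / (1 - θ)) ∧ ∀ α : ℝ, 0 < α → α ∉ X →
        ∃ n₀ : ℕ, ∀ n : ℕ, n₀ ≤ n → ∀ (k : ℕ) (s : Fin k → ℕ), Function.Injective s →
          (∀ i, |(s i : ℝ) - α * v n| ≤ (v n) ^ θ) → HodgeClassesAreProducts β C A fun i => G * s i + r := by
  classical
  obtain ⟨G₀, h0⟩ := Pool.Agent.Results.MP_0da4e0_ag.HodgeTuples.result hm β hβ
  refine ⟨max G₀ 1, le_max_right _ _, fun G hG => ?_⟩
  obtain ⟨E, hE⟩ := h0 G ((le_max_left _ _).trans hG)
  have hG1 : 1 ≤ G := (le_max_right _ _).trans hG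
  have hE0 : (0 : ℝ) ≤ E := Nat.cast_nonneg E
  refine ⟨1 / (2 * (2 * E + 1)), by positivity, by
    rw [div_lt_one (by positivity)]
    linarith, fun r C A hCA v τ θ hv hτ hvτ hθ0 hθ => ?_⟩
  obtain ⟨X, hX, hX2⟩ := Pool.Agent.V11168.NX.nxk ints 1 (2 * E + 1) (m + 2) 0 le_rfl (by omega)
    (by
      rintro S T hST a ⟨n, h1, h2⟩
      exact ⟨n, h1, h2.trans hST⟩)
    (by
      rintro T hT _ ⟨n, rfl, h2⟩ a ha
      refine ⟨n + a, by push_cast; ring, ?_⟩
      push_cast
      rw [pow_one]
      have := abs_add_le (n : ℝ) (a : ℝ)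
      linarith)
    (by
      rintro T hT _ ⟨n, rfl, h2⟩
      rw [Complex.norm_intCast]
      linarith)
    (fun k x => ∀ s : Fin k → ℕ, (∀ i, x i = s i) → HodgeClassesAreProducts β C A fun i => G * s i + r) (by
      intro H N _ hHN
      have hHN1 := pow_ineq E H N hHN
      set T : ℕ := r + G * (N + H + 1) with hT
      have hNT : N ≤ T := by
        have h1 : 1 * (N + H + 1) ≤ G * (N + H + 1) := Nat.mul_le_mul_right _ hG1
        omega
      obtain ⟨-, h2⟩ := hE (2 * H + 1) T (hHN1.trans hNT)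
      obtain ⟨S, hS, hS2⟩ := h2 C A hCA
      refine ⟨S.image fun u : ℕ => (((H : ℤ) + 1 - u : ℤ) : ℂ), Finset.card_image_le.trans hS,
        fun k b' hb' hbS hbA s hs V hV => ?_⟩
      choose b hb1 hb2 using hbA
      have hbH : ∀ i, |b i| ≤ H := fun i => by exact_mod_cast hb2 i
      have hsb : ∀ i, (s i : ℤ) = N + b i := by
        intro i
        have h3 : (N : ℂ) + b' i = s i := hs i
        rw [hb1 i] at h3
        have h4 : ((N + b i : ℤ) : ℂ) = ((s i : ℤ) : ℂ) := by
          push_cast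
          exact h3
        exact_mod_cast h4.symm
      set u : Fin k → ℕ := fun i => ((H : ℤ) + 1 - b i).toNat with hu
      have huZ : ∀ i, (u i : ℤ) = H + 1 - b i := fun i => Int.toNat_of_nonneg (by
        have := (abs_le.1 (hbH i)).2
        omega)
      have hTu : ∀ i, T - G * u i = G * s i + r := by
        intro i
        have h5 : (T : ℤ) = G * s i + r + G * u i := by
          rw [hsb i, huZ i, hT]
          push_cast
          ring
        have h6 : T = G * s i + r + G * u i := by exact_mod_cast h5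
        omega
      refine hS2 k u (fun i i' hii => hb' ?_) (fun i => ⟨?_, ?_, fun hS3 => hbS i ?_⟩) V (fun i => ?_)
      · have h3 := huZ i
        have h4 := huZ i'
        rw [hii] at h3
        have h5 : b i = b i' := by linarith
        rw [hb1 i, hb1 i', h5]
      · have h3 := huZ i
        have := (abs_le.1 (hbH i)).2
        omega
      · have h3 := huZ i
        have := (abs_le.1 (hbH i)).1
        omega
      · rw [Finset.mem_image]
        refine ⟨u i, hS3, ?_⟩
        rw [huZ i, hb1 i]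
        congr 1
        ring
      · rw [hTu i]
        exact hV i)
    (b := 1 / (2 * (2 * E + 1))) (by positivity) (by
      push_cast
      rw [one_mul, one_div, inv_mul_cancel₀ (by positivity)])
    hv hτ hvτ hθ0 hθ
  refine ⟨X, hX, fun α hα hαX => ?_⟩
  obtain ⟨n₀, hn₀⟩ := hX2 α hα hαX
  refine ⟨n₀, fun n hn k s hs hsα => ?_⟩
  exact hn₀ n hn k (fun i => (s i : ℤ)) (fun _ => 0) (fun i => by
      push_cast
      exact hsα i) (fun _ => ⟨0, by simp, by
      simpa using Real.rpow_nonneg (zero_le_one.trans (hv n)) θ⟩) (by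
      intro i i' hii
      apply hs
      simpa using hii) s (fun i => by simp)

/-- **Theorem.** Let `m ≥ 2` and let `β_1, …, β_m` be rational numbers in `(0, 1)`. There is `G₀ ≥ 1` with the following
properties.
(1) For all `G ≥ G₀` there is `c` with `0 < c < 1` such that for all `r`, all rational structures `(C, A)`, all sequences `v_n ≥ 1`
with exponent of convergence at most `τ` and all `0 ≤ θ ≤ c` the following holds for all `α > 0` outside a set of Hausdorff dimension
at most `(1 - c + τ) / (1 - θ)`: for all large `n`, for all `k` and all different natural numbers `s_1, …, s_k` with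
`|s_i - α v_n| ≤ v_n ^ θ` the Hodge classes of the fibres at the points `z = 1 / (G s_i + r)` are products.
(2) For all rational structures `(C, A)`, every sequence `v_n ≥ 1` with exponent of convergence zero and almost every `α > 0` the
following holds. For all `G ≥ G₀` and all `r` there is `θ > 0` such that for all large `n`, for all `k` and all different
`s_1, …, s_k` with `|s_i - α v_n| ≤ v_n ^ θ` the Hodge classes of the fibres at the points `z = 1 / (G s_i + r)` are products.
(3) For example `v_n = 2 ^ n`. -/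
theorem result {m : ℕ} (hm : 2 ≤ m) (β : Fin m → ℚ) (hβ : ∀ j, 0 < β j ∧ β j < 1) :
    ∃ G₀ : ℕ, 1 ≤ G₀ ∧
    (∀ G : ℕ, G₀ ≤ G → ∃ c : ℝ, 0 < c ∧ c < 1 ∧
      ∀ (r : ℕ) (C : Matrix (Fin (2 * m)) (Fin (2 * m)) ℂ) (A : Matrix (Fin (2 * m)) (Fin (2 * m)) ℚ),
      RationalStructure C A → ∀ (v : ℕ → ℝ) (τ θ : ℝ), (∀ n, 1 ≤ v n) → 0 ≤ τ → ConvergenceExponentLe v τ → 0 ≤ θ → θ ≤ c →
      ∃ X : Set ℝ, dimH X ≤ ENNReal.ofReal ((1 - c + τ) / (1 - θ)) ∧ ∀ α : ℝ, 0 < α → α ∉ X →
        ∃ n₀ : ℕ, ∀ n : ℕ, n₀ ≤ n → ∀ (k : ℕ) (s : Fin k → ℕ), Function.Injective s →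
          (∀ i, |(s i : ℝ) - α * v n| ≤ (v n) ^ θ) → HodgeClassesAreProducts β C A fun i => G * s i + r) ∧
    (∀ (C : Matrix (Fin (2 * m)) (Fin (2 * m)) ℂ) (A : Matrix (Fin (2 * m)) (Fin (2 * m)) ℚ), RationalStructure C A →
      ∀ v : ℕ → ℝ, (∀ n, 1 ≤ v n) → ConvergenceExponentLe v 0 → ∀ᵐ α : ℝ, 0 < α →
      ∀ G : ℕ, G₀ ≤ G → ∀ r : ℕ, ∃ θ : ℝ, 0 < θ ∧
        ∃ n₀ : ℕ, ∀ n : ℕ, n₀ ≤ n → ∀ (k : ℕ) (s : Fin k → ℕ), Function.Injective s →
          (∀ i, |(s i : ℝ) - α * v n| ≤ (v n) ^ θ) → HodgeClassesAreProducts β C A fun i => G * s i + r) ∧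
    ConvergenceExponentLe (fun n : ℕ => (2 : ℝ) ^ n) 0 := by
  obtain ⟨G₀, hG₀, h1⟩ := main hm β hβ
  refine ⟨G₀, hG₀, h1, fun C A hCA v hv hv0 => ?_, Pool.Agent.V11286.NE.expLe_two⟩
  have h2 : ∀ (G : ℕ) (r : ℕ), ∀ᵐ α : ℝ, 0 < α → G₀ ≤ G → ∃ θ : ℝ, 0 < θ ∧
        ∃ n₀ : ℕ, ∀ n : ℕ, n₀ ≤ n → ∀ (k : ℕ) (s : Fin k → ℕ), Function.Injective s →
          (∀ i, |(s i : ℝ) - α * v n| ≤ (v n) ^ θ) → HodgeClassesAreProducts β C A fun i => G * s i + r := by
    intro G r
    by_cases hG : G₀ ≤ G
    · obtain ⟨c, hc0, hc1, h⟩ := h1 G hG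
      obtain ⟨X, hX, hX2⟩ := h r C A hCA v 0 (c / 2) hv le_rfl hv0 (by linarith) (by linarith)
      have hX0 : volume X = 0 := Pool.Agent.V11286.NE.vol_zero (Pool.Agent.V11286.NE.ratio_lt hc0 hc1) hX
      have hae : ∀ᵐ α : ℝ, α ∉ X := measure_eq_zero_iff_ae_notMem.1 hX0
      filter_upwards [hae] with α hα hα0 _
      exact ⟨c / 2, by positivity, hX2 α hα0 hα⟩
    · exact ae_of_all _ fun α _ h => absurd h hG
  simp only [← ae_all_iff] at h2
  filter_upwards [h2] with α hα hα0 G hG r
  exact hα G r hα0 hG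

end Pool.Agent.Results.MP_0da4e0_ag.SequencesWithoutExceptions
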